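import Pool.Agent.Lib.MP_6bdaeb_co.Defs

/-!
# Balls, common neighbours and locally recognisable involutions
-/

namespace Pool.Agent.Lib.MP_6bdaeb_co

open SimpleGraph

variable {V W : Type*}

lemma mem_ballSet {G : SimpleGraph V} {v w : V} {r : ℕ} :
    w ∈ ballSet G v r ↔ ∃ p : G.Walk v w, p.length ≤ r := by
  constructor
  · intro h
    have h1 : G.edist v w ≠ ⊤ := ne_top_of_le_ne_top (ENat.natCast_ne_top r) h
    obtain ⟨p, hp⟩ := exists_walk_of_edist_ne_top h1
    refine ⟨p, ?_⟩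
    have h2 : (p.length : ℕ∞) ≤ r := by rw [hp]; exact h
    exact_mod_cast h2
  · rintro ⟨p, hp⟩
    exact (edist_le p).trans (by exact_mod_cast hp)

lemma self_mem_ballSet (G : SimpleGraph V) (v : V) (r : ℕ) : v ∈ ballSet G v r :=
  mem_ballSet.2 ⟨Walk.nil, Nat.zero_le _⟩

lemma ballSet_mono {G : SimpleGraph V} {v : V} {i j : ℕ} (h : i ≤ j) :
    ballSet G v i ⊆ ballSet G v j := fun w hw => by
  rw [mem_ballSet] at *
  obtain ⟨p, hp⟩ := hw
  exact ⟨p, hp.trans h⟩

lemma mem_ballSet_of_adj {G : SimpleGraph V} {v u w : V} {i : ℕ} (hu : u ∈ ballSet G v i)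
    (h : G.Adj u w) : w ∈ ballSet G v (i + 1) := by
  rw [mem_ballSet] at *
  obtain ⟨p, hp⟩ := hu
  exact ⟨p.concat h, by rw [Walk.length_concat]; omega⟩

/-- Number of common neighbours. -/
noncomputable def codeg (G : SimpleGraph V) (u v : V) : ℕ := (G.commonNeighbors u v).ncard

lemma codeg_comm (G : SimpleGraph V) (u v : V) : codeg G u v = codeg G v u := by
  unfold codeg; rw [commonNeighbors_symm]

/-- The number of common neighbours is preserved by an isomorphism of induced subgraphs that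
contain all neighbours of one of the two vertices. -/
lemma codeg_transport {G : SimpleGraph V} {H : SimpleGraph W} {S : Set V} {T : Set W}
    (φ : G.induce S ≃g H.induce T) (u w : S) (hS : G.neighborSet u ⊆ S)
    (hT : H.neighborSet (φ u) ⊆ T) : codeg G u w = codeg H (φ u) (φ w) := by
  unfold codeg
  refine Set.ncard_congr (fun x hx => ((φ ⟨x, hS hx.1⟩ : T) : W)) ?_ ?_ ?_
  · intro x hx
    have h1 : (G.induce S).Adj u ⟨x, hS hx.1⟩ := hx.1
    have h2 : (G.induce S).Adj w ⟨x, hS hx.1⟩ := hx.2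
    exact ⟨φ.map_adj_iff.2 h1, φ.map_adj_iff.2 h2⟩
  · intro x y hx hy hxy
    have := φ.injective (Subtype.ext hxy)
    exact congrArg Subtype.val this
  · intro y hy
    have hyT : y ∈ T := hT hy.1
    obtain ⟨x, hx⟩ := φ.surjective ⟨y, hyT⟩
    have h1 : (H.induce T).Adj (φ u) (φ x) := by rw [hx]; exact hy.1
    have h2 : (H.induce T).Adj (φ w) (φ x) := by rw [hx]; exact hy.2
    refine ⟨x, ⟨φ.map_adj_iff.1 h1, φ.map_adj_iff.1 h2⟩, ?_⟩
    simp [hx]

lemma codeg_iso {G : SimpleGraph V} {H : SimpleGraph W} (φ : G ≃g H) (u w : V) :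
    codeg G u w = codeg H (φ u) (φ w) := by
  unfold codeg
  refine Set.ncard_congr (fun x _ => φ x) ?_ ?_ ?_
  · intro x hx
    exact ⟨φ.map_adj_iff.2 hx.1, φ.map_adj_iff.2 hx.2⟩
  · intro x y _ _ hxy
    exact φ.injective hxy
  · intro y hy
    obtain ⟨x, rfl⟩ := φ.surjective y
    exact ⟨x, ⟨φ.map_adj_iff.1 hy.1, φ.map_adj_iff.1 hy.2⟩, rfl⟩

/-- For each label `x`, every vertex `p` has exactly one neighbour with which it has `c x` common
neighbours, namely `σ x p`. -/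
def Recog {X : Type*} (G : SimpleGraph V) (c : X → ℕ) (σ : X → V → V) : Prop :=
  ∀ x p q, (G.Adj p q ∧ codeg G p q = c x) ↔ q = σ x p

namespace Recog

variable {X : Type*} {G : SimpleGraph V} {c : X → ℕ} {σ : X → V → V}

lemma adj (h : Recog G c σ) (x : X) (p : V) : G.Adj p (σ x p) := ((h x p _).2 rfl).1

lemma codeg_eq (h : Recog G c σ) (x : X) (p : V) : codeg G p (σ x p) = c x := ((h x p _).2 rfl).2

lemma invol (h : Recog G c σ) (x : X) (p : V) : σ x (σ x p) = p := by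
  refine ((h x (σ x p) p).1 ⟨(h.adj x p).symm, ?_⟩).symm
  rw [codeg_comm, h.codeg_eq]

lemma comm_iso (h : Recog G c σ) (φ : G ≃g G) (x : X) (p : V) : φ (σ x p) = σ x (φ p) := by
  refine (h x (φ p) _).1 ⟨φ.map_adj_iff.2 (h.adj x p), ?_⟩
  rw [← codeg_iso, h.codeg_eq]

end Recog

/-- Follow the word `u`, starting at `p`. -/
def act {X : Type*} (σ : X → V → V) : List X → V → V
  | [], p => p
  | x :: u, p => act σ u (σ x p)

section act

variable {X : Type*} (σ : X → V → V)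

@[simp] lemma act_nil (p : V) : act σ [] p = p := rfl

@[simp] lemma act_cons (x : X) (u : List X) (p : V) : act σ (x :: u) p = act σ u (σ x p) := rfl

lemma act_append (u v : List X) (p : V) : act σ (u ++ v) p = act σ v (act σ u p) := by
  induction u generalizing p with
  | nil => rfl
  | cons x u ih => exact ih _

lemma act_concat (u : List X) (x : X) (p : V) : act σ (u ++ [x]) p = σ x (act σ u p) := by
  rw [act_append]; rfl

end act

lemma Recog.act_comm_iso {X : Type*} {G : SimpleGraph V} {c : X → ℕ} {σ : X → V → V}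
    (h : Recog G c σ) (φ : G ≃g G) (u : List X) (p : V) : φ (act σ u p) = act σ u (φ p) := by
  induction u generalizing p with
  | nil => rfl
  | cons x u ih => rw [act_cons, act_cons, ih, h.comm_iso]

lemma Recog.act_mem {X : Type*} {G : SimpleGraph V} {c : X → ℕ} {σ : X → V → V}
    (h : Recog G c σ) (p : V) (u : List X) : act σ u p ∈ ballSet G p u.length := by
  induction u using List.reverseRecOn with
  | nil => exact self_mem_ballSet G p 0
  | append_singleton u x ih =>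
    rw [act_concat, List.length_append]
    exact mem_ballSet_of_adj ih (h.adj x _)

/-- Locally recognisable involutions are inherited by vertex-transitive graphs with the same
`r`-ball, together with all relations between words of length at most `r`. -/
theorem Recog.transfer {X : Type*} {G : SimpleGraph V} {H : SimpleGraph W} {c : X → ℕ}
    {σ : X → V → V} (h : Recog G c σ) (hH : VertexTransitive H) {r : ℕ} (hr : 1 ≤ r)
    (g₀ : V) (h₀ : W) (φ : G.induce (ballSet G g₀ r) ≃g H.induce (ballSet H h₀ r))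
    (hφ : ∀ x : ballSet G g₀ r, (x : V) = g₀ → (φ x : W) = h₀) :
    ∃ σ' : X → W → W, Recog H c σ' ∧ ∀ u u' : List X, u.length ≤ r → u'.length ≤ r →
      ∀ v, act σ' u v = act σ' u' v ↔ act σ u g₀ = act σ u' g₀ := by
  -- neighbours of points at distance at most `r - 1` lie in the ball
  have nbG : ∀ u ∈ ballSet G g₀ (r - 1), G.neighborSet u ⊆ ballSet G g₀ r := by
    intro u hu w hw
    have := mem_ballSet_of_adj hu hw
    rwa [Nat.sub_add_cancel hr] at this
  have nbH : ∀ u ∈ ballSet H h₀ (r - 1), H.neighborSet u ⊆ ballSet H h₀ r := by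
    intro u hu w hw
    have := mem_ballSet_of_adj hu hw
    rwa [Nat.sub_add_cancel hr] at this
  -- a step
  have step : ∀ (p : V) (hp : p ∈ ballSet G g₀ r), p ∈ ballSet G g₀ (r - 1) →
      ((φ ⟨p, hp⟩ : ballSet H h₀ r) : W) ∈ ballSet H h₀ (r - 1) → ∀ x,
      ∀ q, (H.Adj (φ ⟨p, hp⟩) q ∧ codeg H (φ ⟨p, hp⟩) q = c x) ↔
        ∃ hq : σ x p ∈ ballSet G g₀ r, q = φ ⟨σ x p, hq⟩ := by
    intro p hp hp1 hp2 x q
    constructor
    · rintro ⟨h1, h2⟩
      have hq : q ∈ ballSet H h₀ r := nbH _ hp2 h1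
      obtain ⟨⟨p', hp'⟩, hpq⟩ := φ.surjective ⟨q, hq⟩
      have h3 : (H.induce (ballSet H h₀ r)).Adj (φ ⟨p, hp⟩) (φ ⟨p', hp'⟩) := by
        rw [hpq]; exact h1
      have h4 : G.Adj p p' := φ.map_adj_iff.1 h3
      have h5 := codeg_transport φ ⟨p, hp⟩ ⟨p', hp'⟩ (nbG p hp1) (nbH _ hp2)
      rw [hpq] at h5
      have h6 : p' = σ x p := (h x p p').1 ⟨h4, by rw [← h2]; exact h5⟩
      subst h6
      exact ⟨hp', by rw [hpq]⟩
    · rintro ⟨hq, rfl⟩
      have h3 : (G.induce (ballSet G g₀ r)).Adj ⟨p, hp⟩ ⟨σ x p, hq⟩ := h.adj x p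
      refine ⟨φ.map_adj_iff.2 h3, ?_⟩
      rw [← codeg_transport φ ⟨p, hp⟩ ⟨σ x p, hq⟩ (nbG p hp1) (nbH _ hp2)]
      exact h.codeg_eq x p
  have hg₀ := self_mem_ballSet G g₀ r
  have hroot : ((φ ⟨g₀, hg₀⟩ : ballSet H h₀ r) : W) = h₀ := hφ _ rfl
  -- unique existence at every vertex of `H`
  have hex : ∀ (x : X) (v : W), ∃ q, ∀ q', (H.Adj v q' ∧ codeg H v q' = c x) ↔ q' = q := by
    intro x v
    obtain ⟨ψ, hψ⟩ := hH h₀ v
    have h1 := step g₀ hg₀ (self_mem_ballSet _ _ _) (by rw [hroot]; exact self_mem_ballSet _ _ _) x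
    have hq : σ x g₀ ∈ ballSet G g₀ r := nbG g₀ (self_mem_ballSet _ _ _) (h.adj x g₀)
    refine ⟨ψ (φ ⟨σ x g₀, hq⟩), fun q' => ?_⟩
    obtain ⟨q, rfl⟩ := ψ.surjective q'
    rw [← hψ, ψ.map_adj_iff, ← codeg_iso]
    have h2 := h1 q
    rw [hroot] at h2
    rw [h2]
    constructor
    · rintro ⟨_, rfl⟩; rfl
    · intro h3
      exact ⟨hq, ψ.injective h3⟩
  choose σ' hσ' using hex
  have hR : Recog H c σ' := fun x p q => hσ' x p q
  refine ⟨σ', hR, ?_⟩
  -- tracking words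
  have track : ∀ u : List X, u.length ≤ r → ∀ hp : act σ u g₀ ∈ ballSet G g₀ r,
      ((φ ⟨act σ u g₀, hp⟩ : ballSet H h₀ r) : W) = act σ' u h₀ := by
    intro u
    induction u using List.reverseRecOn with
    | nil => intro _ hp; exact hφ _ rfl
    | append_singleton u x ih =>
      intro hu hp
      rw [List.length_append, List.length_singleton] at hu
      have hm : act σ u g₀ ∈ ballSet G g₀ (r - 1) :=
        ballSet_mono (by omega) (h.act_mem g₀ u)
      have hm' : act σ u g₀ ∈ ballSet G g₀ r := ballSet_mono (by omega) hm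
      have h1 := ih (by omega) hm'
      have h2 : ((φ ⟨act σ u g₀, hm'⟩ : ballSet H h₀ r) : W) ∈ ballSet H h₀ (r - 1) := by
        rw [h1]; exact ballSet_mono (by omega) (hR.act_mem h₀ u)
      have hq : σ x (act σ u g₀) ∈ ballSet G g₀ r := nbG _ hm (h.adj x _)
      have h3 := (step _ hm' hm h2 x (φ ⟨σ x (act σ u g₀), hq⟩)).2 ⟨hq, rfl⟩
      rw [h1] at h3
      have h4 := (hR x _ _).1 h3
      have h5 : (⟨act σ (u ++ [x]) g₀, hp⟩ : ballSet G g₀ r) = ⟨σ x (act σ u g₀), hq⟩ := by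
        apply Subtype.ext; exact act_concat σ u x g₀
      rw [h5, h4, act_concat]
  intro u u' hu hu' v
  obtain ⟨ψ, hψ⟩ := hH h₀ v
  rw [← hψ, ← hR.act_comm_iso, ← hR.act_comm_iso, ψ.injective.eq_iff]
  have m1 : act σ u g₀ ∈ ballSet G g₀ r := ballSet_mono hu (h.act_mem g₀ u)
  have m2 : act σ u' g₀ ∈ ballSet G g₀ r := ballSet_mono hu' (h.act_mem g₀ u')
  rw [← track u hu m1, ← track u' hu' m2]
  constructor
  · intro h1
    have := φ.injective (Subtype.ext h1)
    exact congrArg Subtype.val this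
  · intro h1
    congr 2
    exact Subtype.ext h1

/-- The degree is inherited as well. -/
lemma ncard_neighborSet_eq {G : SimpleGraph V} {H : SimpleGraph W} (hH : VertexTransitive H)
    {r : ℕ} (hr : 1 ≤ r)
    (g₀ : V) (h₀ : W) (φ : G.induce (ballSet G g₀ r) ≃g H.induce (ballSet H h₀ r))
    (hφ : ∀ x : ballSet G g₀ r, (x : V) = g₀ → (φ x : W) = h₀) (v : W) :
    (H.neighborSet v).ncard = (G.neighborSet g₀).ncard := by
  have h1 : (H.neighborSet v).ncard = (H.neighborSet h₀).ncard := by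
    obtain ⟨ψ, hψ⟩ := hH v h₀
    refine Set.ncard_congr (fun x _ => ψ x) ?_ ?_ ?_
    · intro x hx
      rw [mem_neighborSet, ← hψ, ψ.map_adj_iff]; exact hx
    · intro x y _ _ hxy; exact ψ.injective hxy
    · intro y hy
      obtain ⟨x, rfl⟩ := ψ.surjective y
      rw [mem_neighborSet, ← hψ, ψ.map_adj_iff] at hy
      exact ⟨x, hy, rfl⟩
  rw [h1]
  have hg₀ := self_mem_ballSet G g₀ r
  have hroot : ((φ ⟨g₀, hg₀⟩ : ballSet H h₀ r) : W) = h₀ := hφ _ rfl
  have nbG : G.neighborSet g₀ ⊆ ballSet G g₀ r := by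
    intro w hw
    exact ballSet_mono (i := 0 + 1) (by omega) (mem_ballSet_of_adj (self_mem_ballSet G g₀ 0) hw)
  have nbH : H.neighborSet h₀ ⊆ ballSet H h₀ r := by
    intro w hw
    exact ballSet_mono (i := 0 + 1) (by omega) (mem_ballSet_of_adj (self_mem_ballSet H h₀ 0) hw)
  symm
  refine Set.ncard_congr (fun x hx => ((φ ⟨x, nbG hx⟩ : ballSet H h₀ r) : W)) ?_ ?_ ?_
  · intro x hx
    have h3 : (G.induce (ballSet G g₀ r)).Adj ⟨g₀, hg₀⟩ ⟨x, nbG hx⟩ := hx
    have h4 := φ.map_adj_iff.2 h3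
    have h5 : H.Adj ((φ ⟨g₀, hg₀⟩ : ballSet H h₀ r) : W) (φ ⟨x, nbG hx⟩ : ballSet H h₀ r) := h4
    rw [hroot] at h5
    exact h5
  · intro x y hx hy hxy
    have := φ.injective (Subtype.ext hxy)
    exact congrArg Subtype.val this
  · intro y hy
    obtain ⟨⟨x, hx⟩, hxy⟩ := φ.surjective ⟨y, nbH hy⟩
    have h3 : (H.induce (ballSet H h₀ r)).Adj (φ ⟨g₀, hg₀⟩) (φ ⟨x, hx⟩) := by
      change H.Adj ((φ ⟨g₀, hg₀⟩ : ballSet H h₀ r) : W) ((φ ⟨x, hx⟩ : ballSet H h₀ r) : W)
      rw [hroot, hxy]; exact hy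
    have h4 : G.Adj g₀ x := φ.map_adj_iff.1 h3
    exact ⟨x, h4, by rw [hxy]⟩

end Pool.Agent.Lib.MP_6bdaeb_co
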