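import Pool.Agent.Lib.MP_6bdaeb_co.Basic

/-!
# Cayley graphs of marked groups
-/

namespace Pool.Agent.Lib.MP_6bdaeb_co

open SimpleGraph

variable {P : Type*} [Group P] {Q : Type*} [Group Q] {ι : Type*}

/-- Evaluation of a word. -/
def ev (s : ι → P) (u : List ι) : P := (u.map s).prod

@[simp] lemma ev_nil (s : ι → P) : ev s [] = 1 := rfl

@[simp] lemma ev_cons (s : ι → P) (i : ι) (u : List ι) : ev s (i :: u) = s i * ev s u := by
  simp [ev]

lemma ev_append (s : ι → P) (u v : List ι) : ev s (u ++ v) = ev s u * ev s v := by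
  simp [ev]

lemma ev_concat (s : ι → P) (u : List ι) (i : ι) : ev s (u ++ [i]) = ev s u * s i := by
  simp [ev_append]

/-- The marking `s` is symmetric, without the identity, and generates the group. -/
structure IsMarking (s : ι → P) : Prop where
  symm : ∀ i, ∃ j, s j = (s i)⁻¹
  ne_one : ∀ i, s i ≠ 1
  gen : ∀ g, ∃ u : List ι, ev s u = g

/-- The Cayley graph of a marked group. -/
def cay (s : ι → P) (hs : IsMarking s) : SimpleGraph P where
  Adj g h := ∃ i, g * s i = h
  symm := by
    constructor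
    rintro g _ ⟨i, rfl⟩
    obtain ⟨j, hj⟩ := hs.symm i
    exact ⟨j, by rw [hj, mul_inv_cancel_right]⟩
  loopless := by
    constructor
    rintro g ⟨i, hi⟩
    exact hs.ne_one i (by simpa using hi)

variable {s : ι → P} (hs : IsMarking s) {t : ι → Q} (ht : IsMarking t)

lemma cay_adj {g h : P} : (cay s hs).Adj g h ↔ ∃ i, g * s i = h := Iff.rfl

/-- Left multiplication. -/
def leftMul (a : P) : cay s hs ≃g cay s hs where
  toEquiv := Equiv.mulLeft a
  map_rel_iff' := by
    intro g h
    simp only [Equiv.coe_mulLeft, cay_adj, mul_assoc, mul_right_inj]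

lemma cay_vertexTransitive : VertexTransitive (cay s hs) := fun g h =>
  ⟨leftMul hs (h * g⁻¹), by simp [leftMul]⟩

lemma mem_ball_cay {r : ℕ} {w : P} :
    w ∈ ballSet (cay s hs) 1 r ↔ ∃ u : List ι, u.length ≤ r ∧ ev s u = w := by
  rw [mem_ballSet]
  constructor
  · rintro ⟨p, hp⟩
    have key : ∀ {g h : P} (p : (cay s hs).Walk g h),
        ∃ u : List ι, u.length = p.length ∧ g * ev s u = h := by
      intro g h p
      induction p with
      | nil => exact ⟨[], rfl, by simp⟩
      | cons hadj q ih =>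
        obtain ⟨i, rfl⟩ := hadj
        obtain ⟨u, hu1, hu2⟩ := ih
        exact ⟨i :: u, by rw [List.length_cons, hu1]; rfl, by rw [ev_cons, ← mul_assoc]; exact hu2⟩
    obtain ⟨u, hu1, hu2⟩ := key p
    exact ⟨u, by omega, by simpa using hu2⟩
  · rintro ⟨u, hu, rfl⟩
    have key : ∀ (u : List ι) (g : P),
        ∃ p : (cay s hs).Walk g (g * ev s u), p.length = u.length := by
      intro u
      induction u with
      | nil => intro g; exact ⟨Walk.nil.copy rfl (by simp), by rw [Walk.length_copy]; rfl⟩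
      | cons i u ih =>
        intro g
        obtain ⟨p, hp⟩ := ih (g * s i)
        have hadj : (cay s hs).Adj g (g * s i) := ⟨i, rfl⟩
        exact ⟨(Walk.cons hadj p).copy rfl (by rw [ev_cons, mul_assoc]), by
          rw [Walk.length_copy, Walk.length_cons, hp, List.length_cons]⟩
    obtain ⟨p, hp⟩ := key u 1
    exact ⟨p.copy rfl (by simp), by simpa [hp] using hu⟩

lemma cay_connected : (cay s hs).Connected := by
  have h1 : ∀ g, (cay s hs).Reachable 1 g := by
    intro g
    obtain ⟨u, hu⟩ := hs.gen g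
    have : g ∈ ballSet (cay s hs) 1 u.length := (mem_ball_cay hs).2 ⟨u, le_rfl, hu⟩
    rw [mem_ballSet] at this
    obtain ⟨p, -⟩ := this
    exact ⟨p⟩
  exact (connected_iff _).2 ⟨fun g h => (h1 g).symm.trans (h1 h), ⟨1⟩⟩

/-- If the same short words are equal in two marked groups, then their Cayley graphs have the
same ball. -/
theorem sameBall_cay {r : ℕ} (h : ∀ u v : List ι, u.length ≤ r + 1 → v.length ≤ r + 1 →
    (ev s u = ev s v ↔ ev t u = ev t v)) : SameBall r (cay s hs) (cay t ht) := by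
  have hP : ∀ x : ballSet (cay s hs) 1 r, ∃ u : List ι, u.length ≤ r ∧ ev s u = x :=
    fun x => (mem_ball_cay hs).1 x.2
  have hQ : ∀ x : ballSet (cay t ht) 1 r, ∃ u : List ι, u.length ≤ r ∧ ev t u = x :=
    fun x => (mem_ball_cay ht).1 x.2
  choose wP lP eP using hP
  choose wQ lQ eQ using hQ
  let f : ballSet (cay s hs) 1 r → ballSet (cay t ht) 1 r :=
    fun x => ⟨ev t (wP x), (mem_ball_cay ht).2 ⟨wP x, lP x, rfl⟩⟩
  let g : ballSet (cay t ht) 1 r → ballSet (cay s hs) 1 r :=
    fun x => ⟨ev s (wQ x), (mem_ball_cay hs).2 ⟨wQ x, lQ x, rfl⟩⟩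
  have hfg : ∀ x, f (g x) = x := by
    intro x
    apply Subtype.ext
    have h1 : ev s (wP (g x)) = ev s (wQ x) := eP (g x)
    have h2 := (h _ _ ((lP (g x)).trans (Nat.le_succ r)) ((lQ x).trans (Nat.le_succ r))).1 h1
    exact h2.trans (eQ x)
  have hgf : ∀ x, g (f x) = x := by
    intro x
    apply Subtype.ext
    have h1 : ev t (wQ (f x)) = ev t (wP x) := eQ (f x)
    have h2 := (h _ _ ((lQ (f x)).trans (Nat.le_succ r)) ((lP x).trans (Nat.le_succ r))).2 h1
    exact h2.trans (eP x)
  refine ⟨1, 1, ⟨⟨f, g, hgf, hfg⟩, ?_⟩, ?_⟩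
  · intro x y
    change (∃ i, ev t (wP x) * t i = ev t (wP y)) ↔ (∃ i, (x : P) * s i = (y : P))
    refine exists_congr (fun i => ?_)
    rw [← ev_concat, ← h _ _ _ ((lP y).trans (Nat.le_succ r)), ev_concat, eP, eP]
    rw [List.length_append, List.length_singleton]
    exact Nat.add_le_add_right (lP x) 1
  · intro x hx
    change ev t (wP x) = 1
    have h1 : ev s (wP x) = ev s [] := by rw [eP, hx, ev_nil]
    exact (h _ _ ((lP x).trans (Nat.le_succ r)) (Nat.zero_le _)).1 h1

end Pool.Agent.Lib.MP_6bdaeb_co
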