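import Pool.Agent.Lib.MP_6bdaeb_co.Basic

/-!
# Counting vertices
-/

namespace Pool.Agent.Lib.MP_6bdaeb_co

open SimpleGraph

variable {W : Type*}

/-- A ball of radius `k` in a graph of maximum degree at most `d` has at most `(d+1)^k` vertices. -/
lemma card_ball_le [Finite W] (H : SimpleGraph W) (d : ℕ) (hd : ∀ v, (H.neighborSet v).ncard ≤ d)
    (v : W) (k : ℕ) : (ballSet H v k).ncard ≤ (d + 1) ^ k := by
  classical
  have := Fintype.ofFinite W
  induction k with
  | zero =>
    have h : ballSet H v 0 ⊆ {v} := by
      intro w hw
      rw [mem_ballSet] at hw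
      obtain ⟨p, hp⟩ := hw
      have := Walk.eq_of_length_eq_zero (Nat.le_zero.1 hp)
      exact this.symm
    calc (ballSet H v 0).ncard ≤ ({v} : Set W).ncard := Set.ncard_le_ncard h
      _ = 1 := Set.ncard_singleton v
      _ = (d + 1) ^ 0 := by simp
  | succ k ih =>
    have hsub : ballSet H v (k + 1) ⊆
        ⋃ u ∈ (ballSet H v k).toFinite.toFinset, insert u (H.neighborSet u) := by
      intro w hw
      simp only [Set.Finite.mem_toFinset, Set.mem_iUnion]
      rw [mem_ballSet] at hw
      obtain ⟨p, hp⟩ := hw
      by_cases h : p.length ≤ k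
      · exact ⟨w, mem_ballSet.2 ⟨p, h⟩, Set.mem_insert _ _⟩
      · have hne : ¬ p.Nil := by
          intro hn
          rw [← Walk.length_eq_zero_iff] at hn
          omega
        refine ⟨p.penultimate, mem_ballSet.2 ⟨p.dropLast, ?_⟩, Set.mem_insert_of_mem _ ?_⟩
        · have := p.length_dropLast_add_one hne
          omega
        · exact p.adj_penultimate hne
    have h1 : ∀ u, (insert u (H.neighborSet u) : Set W).ncard ≤ d + 1 := fun u =>
      (Set.ncard_insert_le _ _).trans (Nat.add_le_add_right (hd u) 1)
    calc (ballSet H v (k + 1)).ncard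
        ≤ (⋃ u ∈ (ballSet H v k).toFinite.toFinset,
            insert u (H.neighborSet u) : Set W).ncard := Set.ncard_le_ncard hsub
      _ ≤ ∑ u ∈ (ballSet H v k).toFinite.toFinset,
            (insert u (H.neighborSet u) : Set W).ncard := by
          exact Finset.set_ncard_biUnion_le _ _
      _ ≤ ∑ _u ∈ (ballSet H v k).toFinite.toFinset, (d + 1) := Finset.sum_le_sum (fun u _ => h1 u)
      _ = (ballSet H v k).ncard * (d + 1) := by
          rw [Finset.sum_const, smul_eq_mul, Set.ncard_eq_toFinset_card _ (ballSet H v k).toFinite]
      _ ≤ (d + 1) ^ k * (d + 1) := Nat.mul_le_mul_right _ ih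
      _ = (d + 1) ^ (k + 1) := (pow_succ _ _).symm

/-- A finite graph of maximum degree at most `d` and diameter at most `k` has at most `(d+1)^k`
vertices. -/
lemma card_le_of_ediam_le [Finite W] [Nonempty W] (H : SimpleGraph W) (d : ℕ)
    (hd : ∀ v, (H.neighborSet v).ncard ≤ d) (k : ℕ) (hk : H.ediam ≤ k) :
    Nat.card W ≤ (d + 1) ^ k := by
  obtain ⟨v⟩ := ‹Nonempty W›
  have h1 : ballSet H v k = Set.univ := by
    ext w
    simp only [Set.mem_univ, iff_true]
    exact (edist_le_ediam).trans hk
  have := card_ball_le H d hd v k
  rwa [h1, Set.ncard_univ] at this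

/-- If a vertex-transitive finite graph has recognisable involutions and words `y j` (`j ∈ J`)
which are pairwise different and satisfy the relations of the transpositions `(∞ j)`, then it has
at least `|J|!` vertices. -/
theorem factorial_le_card {X : Type*} {H : SimpleGraph W} {c : X → ℕ} {σ : X → W → W}
    (h : Recog H c σ) (hH : VertexTransitive H) [Finite W] (w₀ : W)
    {J : Type*} [Fintype J] [DecidableEq J] (y : J → List X)
    (hy : ∀ i j, i ≠ j → act σ (y i) w₀ ≠ act σ (y j) w₀)
    (hrel : ∀ i j l : J, i ≠ j → ∀ v, act σ (y l ++ (y i ++ (y j ++ y i))) v =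
      act σ ((y i ++ (y j ++ y i)) ++ y (Equiv.swap i j l)) v) :
    (Fintype.card J).factorial ≤ Nat.card W := by
  -- words act by injective maps that commute with automorphisms
  let Y : J → W → W := fun j v => act σ (y j) v
  -- for each permutation find a map commuting with automorphisms
  have key : ∀ π : Equiv.Perm J, ∃ q : W → W, Function.Injective q ∧
      (∀ φ : H ≃g H, ∀ v, φ (q v) = q (φ v)) ∧ ∀ l v, q (Y l v) = Y (π l) (q v) := by
    intro π
    induction π using Equiv.Perm.swap_induction_on with
    | one => exact ⟨id, Function.injective_id, fun _ _ => rfl, fun _ _ => rfl⟩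
    | swap_mul π i j hij ih =>
      obtain ⟨q, hq1, hq2, hq3⟩ := ih
      refine ⟨fun v => act σ (y i ++ (y j ++ y i)) (q v), ?_, ?_, ?_⟩
      · have hinj : ∀ u : List X, Function.Injective (act σ u) := by
          intro u
          induction u with
          | nil => exact Function.injective_id
          | cons x u ihu =>
            intro a b hab
            rw [act_cons, act_cons] at hab
            have := ihu hab
            rw [← h.invol x a, this, h.invol]
        exact (hinj _).comp hq1
      · intro φ v
        rw [h.act_comm_iso, hq2]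
      · intro l v
        simp only
        rw [hq3 l v]
        simp only [Y]
        rw [← act_append, hrel i j (π l) hij (q v), act_append]
        rfl
  choose q hq1 hq2 hq3 using key
  have hinj : Function.Injective (fun π : Equiv.Perm J => q π w₀) := by
    intro π π' hππ
    simp only at hππ
    -- the maps agree everywhere
    have hall : ∀ v, q π v = q π' v := by
      intro v
      obtain ⟨φ, hφ⟩ := hH w₀ v
      rw [← hφ, ← hq2, ← hq2, hππ]
    ext l
    by_contra hne
    obtain ⟨φ, hφ⟩ := hH w₀ (q π w₀)
    apply hy _ _ hne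
    apply φ.injective
    rw [h.act_comm_iso, h.act_comm_iso, hφ]
    have e1 := hq3 π l w₀
    have e2 := hq3 π' l w₀
    simp only [Y] at e1 e2
    rw [← e1, hall (act σ (y l) w₀), e2, hππ]
  have h1 := Nat.card_le_card_of_injective _ hinj
  rwa [Nat.card_eq_fintype_card, Fintype.card_perm] at h1

end Pool.Agent.Lib.MP_6bdaeb_co
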