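import Mathlib

/-!
# Vertex-transitive graphs with the same `r`-ball: definitions
-/

namespace Pool.Agent.Lib.MP_6bdaeb_co

variable {V W : Type*}

/-- `G` is vertex-transitive: any vertex can be mapped to any other by an automorphism. -/
def VertexTransitive (G : SimpleGraph V) : Prop := ∀ u v : V, ∃ φ : G ≃g G, φ u = v

/-- The vertices at distance at most `r` from `v`. -/
def ballSet (G : SimpleGraph V) (v : V) (r : ℕ) : Set V := {w | G.edist v w ≤ r}

/-- The graphs `G` and `H` have the same `r`-ball: for some vertices `v` and `w` there is an
isomorphism from the subgraph of `G` induced on the vertices at distance at most `r` from `v` to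
the subgraph of `H` induced on the vertices at distance at most `r` from `w` that maps `v` to `w`.
(For vertex-transitive graphs the choice of `v` and `w` does not matter.) -/
def SameBall (r : ℕ) (G : SimpleGraph V) (H : SimpleGraph W) : Prop :=
  ∃ (v : V) (w : W) (φ : G.induce (ballSet G v r) ≃g H.induce (ballSet H w r)),
    ∀ x : ballSet G v r, (x : V) = v → (φ x : W) = w

/-- `D G r` is the least diameter of a finite connected vertex-transitive graph with the same
`r`-ball as `G`, and `⊤` if there is no such graph. (Every finite graph is isomorphic to one with
vertex set `Fin n`.) -/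
noncomputable def D (G : SimpleGraph V) (r : ℕ) : ℕ∞ :=
  ⨅ (n : ℕ) (H : SimpleGraph (Fin n))
    (_ : H.Connected ∧ VertexTransitive H ∧ SameBall r G H), H.ediam

end Pool.Agent.Lib.MP_6bdaeb_co
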