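import Pool.Agent.Lib.MP_6bdaeb_co.Limit

/-!
# Exponential lower bounds
-/

namespace Pool.Agent.Lib.MP_6bdaeb_co

open SimpleGraph Filter

/-! ### Many reduced words -/

lemma enc_injective : Function.Injective enc := by
  intro t
  induction t with
  | nil =>
    intro t' h
    have := congrArg List.length h
    rw [(enc_mem _).2, (enc_mem _).2] at this
    exact (List.length_eq_zero_iff.1 this.symm).symm
  | cons b t ih =>
    intro t' h
    cases t' with
    | nil =>
      have := congrArg List.length h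
      rw [(enc_mem _).2, (enc_mem _).2] at this
      simp at this
    | cons b' t' =>
      simp only [enc, List.cons.injEq] at h
      obtain ⟨h1, h2⟩ := h
      have h3 := ih h2
      subst h3
      have key : ∀ (y : Fin 3) (b b' : Bool), (y + 1 + if b = true then 1 else 0) =
          (y + 1 + if b' = true then 1 else 0) → b = b' := by decide
      rw [key _ _ _ h1]

lemma two_pow_le_card (k : ℕ) : 2 ^ k ≤ Fintype.card (RW k) := by
  have h : Fintype.card (List.Vector Bool k) ≤ Fintype.card (RW k) := by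
    refine Fintype.card_le_of_injective (fun v : List.Vector Bool k =>
      (⟨enc v.1, (enc_mem v.1).1, by rw [(enc_mem v.1).2, v.2]⟩ : RW k)) ?_
    intro v v' hv
    have := congrArg (fun w : RW k => w.1) hv
    exact Subtype.ext (enc_injective this)
  rwa [card_vector, Fintype.card_bool] at h

lemma le_of_factorial_le {k e : ℕ} (hk : 6 ≤ k)
    (h : (Fintype.card (RW k)).factorial ≤ 21 ^ e) : 2 ^ (k - 1) ≤ e := by
  obtain ⟨m, rfl⟩ : ∃ m, k = m + 1 := ⟨k - 1, by omega⟩
  rw [Nat.add_sub_cancel]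
  set M := 2 ^ m with hM
  have hM32 : 32 ≤ M := by
    have : 2 ^ 5 ≤ 2 ^ m := Nat.pow_le_pow_right (by norm_num) (by omega)
    omega
  have h1 : (M + M).factorial ≤ 21 ^ e := by
    refine (Nat.factorial_le ?_).trans h
    have := two_pow_le_card (m + 1)
    rw [pow_succ] at this
    omega
  have h2 : M.factorial * (M + 1) ^ M ≤ (M + M).factorial :=
    Nat.factorial_mul_pow_le_factorial
  have h3 : 32 ^ M ≤ M.factorial * (M + 1) ^ M := by
    calc 32 ^ M ≤ (M + 1) ^ M := Nat.pow_le_pow_left (by omega) M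
      _ ≤ M.factorial * (M + 1) ^ M := Nat.le_mul_of_pos_left _ (Nat.factorial_pos M)
  have h4 : (21 : ℕ) ^ e ≤ 32 ^ e := Nat.pow_le_pow_left (by norm_num) e
  have h5 : 32 ^ M ≤ 32 ^ e := h3.trans (h2.trans (h1.trans h4))
  exact (Nat.pow_le_pow_iff_right (by norm_num)).1 h5

/-! ### Transport along isomorphisms -/

section Iso

variable {V W W' : Type*}

lemma edist_hom_le {G : SimpleGraph V} {H : SimpleGraph W} (φ : G →g H) (a b : V) :
    H.edist (φ a) (φ b) ≤ G.edist a b := by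
  refine le_iInf (fun p => ?_)
  rw [← Walk.length_map φ p]
  exact Walk.edist_le (p.map φ)

lemma edist_iso {G : SimpleGraph V} {H : SimpleGraph W} (φ : G ≃g H) (a b : V) :
    H.edist (φ a) (φ b) = G.edist a b := by
  refine le_antisymm (edist_hom_le φ.toHom a b) ?_
  have := edist_hom_le φ.symm.toHom (φ a) (φ b)
  simpa using this

lemma vertexTransitive_iso {H : SimpleGraph W} {H' : SimpleGraph W'} (ψ : H ≃g H')
    (hH : VertexTransitive H) : VertexTransitive H' := by
  intro u v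
  obtain ⟨φ, hφ⟩ := hH (ψ.symm u) (ψ.symm v)
  refine ⟨(ψ.symm.trans φ).trans ψ, ?_⟩
  change ψ (φ (ψ.symm u)) = v
  rw [hφ]
  exact ψ.apply_symm_apply v

lemma mem_ballSet_iso {H : SimpleGraph W} {H' : SimpleGraph W'} (ψ : H ≃g H') (w x : W) (r : ℕ) :
    ψ x ∈ ballSet H' (ψ w) r ↔ x ∈ ballSet H w r := by
  change H'.edist (ψ w) (ψ x) ≤ r ↔ H.edist w x ≤ r
  rw [edist_iso]

lemma sameBall_iso {r : ℕ} {G : SimpleGraph V} {H : SimpleGraph W} {H' : SimpleGraph W'}
    (ψ : H ≃g H') (h : SameBall r G H) : SameBall r G H' := by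
  obtain ⟨v, w, φ, hφ⟩ := h
  let χ : H.induce (ballSet H w r) ≃g H'.induce (ballSet H' (ψ w) r) :=
    { toEquiv := ψ.toEquiv.subtypeEquiv (fun x => (mem_ballSet_iso ψ w x r).symm)
      map_rel_iff' := by
        intro a b
        exact ψ.map_rel_iff' }
  refine ⟨v, ψ w, φ.trans χ, fun x hx => ?_⟩
  change ψ (φ x : W) = ψ w
  rw [hφ x hx]

theorem D_lt_top {r : ℕ} {G : SimpleGraph V} [Finite W] (H : SimpleGraph W) (hc : H.Connected)
    (hH : VertexTransitive H) (h : SameBall r G H) : D G r < ⊤ := by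
  have := Fintype.ofFinite W
  have e := H.overFinIso (n := Fintype.card W) rfl
  have hc' : (H.overFin (n := Fintype.card W) rfl).Connected := e.connected_iff.1 hc
  have : Nonempty (Fin (Fintype.card W)) := hc'.nonempty
  refine lt_of_le_of_lt ?_ (lt_top_iff_ne_top.2 (connected_iff_ediam_ne_top.1 hc'))
  exact iInf_le_of_le (Fintype.card W) (iInf_le_of_le (H.overFin rfl)
    (iInf_le_of_le ⟨hc', vertexTransitive_iso e hH, sameBall_iso e h⟩ le_rfl))

theorem le_D {r : ℕ} {G : SimpleGraph V} {m : ℕ∞}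
    (h : ∀ (n : ℕ) (H : SimpleGraph (Fin n)), H.Connected → VertexTransitive H →
      SameBall r G H → m ≤ H.ediam) : m ≤ D G r :=
  le_iInf fun n => le_iInf fun H => le_iInf fun hH => h n H hH.1 hH.2.1 hH.2.2

end Iso

/-! ### The main statements -/

/-- The exponential lower bound for the diameter. -/
theorem two_pow_le_ediam {Γ : Type*} [Group Γ] {lam : Fin 5 → Γ} (h : Good lam) (r N : ℕ)
    (hr : 200 ≤ r) (hN : r ≤ N)
    (hp : ∀ u v : List (Fin 5), u.length ≤ r → v.length ≤ r →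
      (ev lam u = ev lam v ↔ ev (lamN N) u = ev (lamN N) v))
    {W : Type*} [Finite W] (H : SimpleGraph W) (hc : H.Connected) (hH : VertexTransitive H)
    (hb : SameBall r (gad h) H) : ((2 ^ (r / 9) : ℕ) : ℕ∞) ≤ H.ediam := by
  obtain ⟨h1, h2, -⟩ := lower_bound_model h ((r - 4) / 8) N r (by omega)
    (fun u v hu hv => hp u v (by omega) (by omega)) (by omega) H hc hH hb
  have h3 := le_of_factorial_le (by omega) h1
  have h4 : 2 ^ (r / 9) ≤ 2 ^ ((r - 4) / 8 - 1) := Nat.pow_le_pow_right (by norm_num) (by omega)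
  rw [← ENat.natCast_toNat h2]
  exact_mod_cast h4.trans h3

/-- The infinite graph. -/
noncomputable abbrev GU : SimpleGraph (Subgroup.closure (Set.range lamU) × Multiplicative (ZMod 14)) :=
  gad goodU

lemma patternU (R N₀ : ℕ) : ∃ N ≥ N₀, ∀ u v : List (Fin 5), u.length ≤ R → v.length ≤ R →
    (ev (lamC lamU) u = ev (lamC lamU) v ↔ ev (lamN N) u = ev (lamN N) v) := by
  obtain ⟨N, hN, h⟩ := exists_model R N₀
  exact ⟨N, hN, fun u v hu hv => by rw [ev_lamC_eq_iff, h u v hu hv]⟩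

lemma D_GU_lt_top (r : ℕ) : D GU r < ⊤ := by
  obtain ⟨N, hN, h⟩ := patternU (r + 1) 2
  exact D_lt_top (gad (goodN hN)) (cay_connected _) (cay_vertexTransitive _)
    (sameBall_gad goodU (goodN hN) (fun u v hu hv => by rw [h u v hu hv, ev_lamC_eq_iff]))

lemma le_D_GU (r : ℕ) (hr : 200 ≤ r) : ((2 ^ (r / 9) : ℕ) : ℕ∞) ≤ D GU r := by
  obtain ⟨N, hN, h⟩ := patternU r r
  exact le_D (fun n H hc hH hb => two_pow_le_ediam goodU r N hr hN h H hc hH hb)

lemma sameBall_refl {V : Type*} (G : SimpleGraph V) (v : V) (r : ℕ) : SameBall r G G :=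
  ⟨v, v, Iso.refl, fun _ hx => hx⟩

lemma infinite_GU : Infinite (Subgroup.closure (Set.range lamU) × Multiplicative (ZMod 14)) := by
  by_contra hfin
  rw [not_infinite_iff_finite] at hfin
  set c := Nat.card (Subgroup.closure (Set.range lamU) × Multiplicative (ZMod 14)) with hc
  obtain ⟨N, hN, h⟩ := patternU (8 * c + 4) c
  obtain ⟨-, -, h3⟩ := lower_bound_model goodU c N (8 * c + 4) hN h le_rfl GU
    (cay_connected _) (cay_vertexTransitive _) (sameBall_refl _ 1 _)
  have h4 := two_pow_le_card c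
  have h5 : c < 2 ^ c := Nat.lt_two_pow_self
  have h6 := Nat.self_le_factorial (Fintype.card (RW c))
  omega

lemma exists_mul_lt (c : ℕ) : ∃ r, 200 ≤ r ∧ c * r < 2 ^ (r / 9) := by
  set s := 18 * c + 23 with hs
  refine ⟨9 * (s + s), by omega, ?_⟩
  rw [Nat.mul_div_cancel_left _ (by norm_num), pow_add]
  have h1 : s < 2 ^ s := Nat.lt_two_pow_self
  calc c * (9 * (s + s)) = (18 * c) * s := by ring
    _ ≤ s * s := Nat.mul_le_mul_right s (by omega)
    _ < 2 ^ s * 2 ^ s := Nat.mul_lt_mul'' h1 h1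

/-- Negative answer to the first question, with an exponential lower bound. -/
theorem main_one : ∃ (V : Type) (G : SimpleGraph V), Infinite V ∧ G.Connected ∧
    (∀ v, (G.neighborSet v).ncard = 20) ∧ VertexTransitive G ∧ (∀ r, D G r < ⊤) ∧
    (∀ r, 200 ≤ r → ((2 ^ (r / 9) : ℕ) : ℕ∞) ≤ D G r) ∧
    ¬ ∃ c : ℕ, ∀ r, 1 ≤ r → D G r ≤ ((c * r : ℕ) : ℕ∞) := by
  refine ⟨_, GU, infinite_GU, cay_connected _, ncard_nb_gad goodU, cay_vertexTransitive _,
    D_GU_lt_top, le_D_GU, ?_⟩
  rintro ⟨c, hc⟩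
  obtain ⟨r, hr, h⟩ := exists_mul_lt c
  have h1 := (le_D_GU r hr).trans (hc r (by omega))
  rw [Nat.cast_le] at h1
  omega

/-- Negative answer to the second question, with an exponential lower bound. -/
theorem main_two (r : ℕ) (hr : 200 ≤ r) : ∃ (V : Type) (_ : Finite V) (H : SimpleGraph V),
    H.Connected ∧ VertexTransitive H ∧ (∀ v, (H.neighborSet v).ncard = 20) ∧
    ∀ (W : Type) (_ : Finite W) (H' : SimpleGraph W), H'.Connected → VertexTransitive H' →
      SameBall r H H' → ((2 ^ (r / 9) : ℕ) : ℕ∞) ≤ H'.ediam := by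
  have h2 : 2 ≤ r := by omega
  refine ⟨_, inferInstance, gad (goodN h2), cay_connected _, cay_vertexTransitive _,
    ncard_nb_gad _, fun W _ H' hc hH hb => ?_⟩
  exact two_pow_le_ediam (goodN h2) r r hr le_rfl (fun u v _ _ => ev_lamC_eq_iff _ u v) H' hc hH hb

/-- Negative answer to the second question. -/
theorem main_two' : ¬ ∃ c : ℕ, ∀ (V : Type) (_ : Finite V) (H : SimpleGraph V),
    H.Connected → VertexTransitive H → (∀ v, (H.neighborSet v).ncard = 20) → ∀ r, 1 ≤ r →
    ∃ (W : Type) (_ : Finite W) (H' : SimpleGraph W), H'.Connected ∧ VertexTransitive H' ∧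
      SameBall r H H' ∧ H'.ediam ≤ ((c * r : ℕ) : ℕ∞) := by
  rintro ⟨c, hc⟩
  obtain ⟨r, hr, h⟩ := exists_mul_lt c
  obtain ⟨V, hV, H, h1, h2, h3, h4⟩ := main_two r hr
  obtain ⟨W, hW, H', h5, h6, h7, h8⟩ := hc V hV H h1 h2 h3 r (by omega)
  have h9 := (h4 W hW H' h5 h6 h7).trans h8
  rw [Nat.cast_le] at h9
  omega

end Pool.Agent.Lib.MP_6bdaeb_co
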