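import Pool.Agent.Lib.MP_6bdaeb_co.Cayley
import Pool.Agent.Lib.MP_6bdaeb_co.Counting

/-!
# The gadget that makes four involutions locally recognisable
-/

namespace Pool.Agent.Lib.MP_6bdaeb_co

open SimpleGraph

/-- The obvious products of letters, where the letter `0` stands for the identity. -/
def sym (y z x : Fin 5) : Prop := (y = 0 ∧ z = x) ∨ (z = 0 ∧ y = x) ∨ (y = z ∧ x = 0)

instance (y z x : Fin 5) : Decidable (sym y z x) := by unfold sym; infer_instance

/-- Shifts attached to the letters. -/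
def E : Fin 5 → Finset (ZMod 14) :=
  ![{5, 6, 7, 8, 9}, {0}, {0, 6, 8}, {0, 5, 6, 8, 9}, {0, 4, 6, 7, 8, 10}]

/-- Numbers of common neighbours of the four letters. -/
def cc : Fin 4 → ℕ := ![0, 4, 8, 6]

/-- Generators of the gadget graph. -/
abbrev St : Type := {p : Fin 5 × ZMod 14 // p.2 ∈ E p.1}

/-- Common neighbours, as pairs of a letter and a shift. -/
def CN (y : Fin 5) (k : ZMod 14) : Finset (Fin 5 × ZMod 14) :=
  Finset.univ.filter (fun p => p.2 ∈ E p.1 ∧ ∃ z' : Fin 5, sym p.1 z' y ∧ k - p.2 ∈ E z')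

lemma table : ∀ x : Fin 4, ∀ y : Fin 5, ∀ k ∈ E y,
    ((CN y k).card = cc x ↔ (y = x.succ ∧ k = 0)) := by decide +kernel

lemma card_St : Fintype.card St = 20 := by decide +kernel

lemma neg_mem_E : ∀ y : Fin 5, ∀ k ∈ E y, -k ∈ E y := by decide +kernel

lemma zero_mem_E : ∀ y : Fin 5, (0 : ZMod 14) ∈ E y ↔ y ≠ 0 := by decide +kernel

variable {Γ : Type*} [Group Γ]

/-- A marked group whose letters multiply as they should. -/
structure Good (lam : Fin 5 → Γ) : Prop where
  gen : ∀ g, ∃ u : List (Fin 5), ev lam u = g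
  mul_eq : ∀ y z x, lam y * lam z = lam x ↔ sym y z x

namespace Good

variable {lam : Fin 5 → Γ} (h : Good lam)
include h

lemma zero : lam 0 = 1 := by
  have := (h.mul_eq 0 0 0).2 (by decide)
  simpa using this

lemma mul_self (y : Fin 5) : lam y * lam y = 1 := by
  rw [(h.mul_eq y y 0).2 (Or.inr (Or.inr ⟨rfl, rfl⟩)), h.zero]

lemma inv (y : Fin 5) : (lam y)⁻¹ = lam y := inv_eq_of_mul_eq_one_left (h.mul_self y)

lemma injective : Function.Injective lam := by
  intro y z hyz
  have h1 : lam 0 * lam y = lam z := by rw [h.zero, one_mul, hyz]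
  have key : ∀ y z : Fin 5, sym 0 y z → y = z := by decide
  exact key y z ((h.mul_eq 0 y z).1 h1)

end Good

/-- The marking of `Γ × ℤ/14`. -/
def mark (lam : Fin 5 → Γ) : St → Γ × Multiplicative (ZMod 14) :=
  fun p => (lam p.1.1, Multiplicative.ofAdd p.1.2)

lemma ev_mark_fst (lam : Fin 5 → Γ) (u : List St) :
    (ev (mark lam) u).1 = ev lam (u.map (fun p => p.1.1)) := by
  induction u with
  | nil => rfl
  | cons p u ih => rw [ev_cons, List.map_cons, ev_cons, Prod.fst_mul, ih]; rfl

lemma ev_mark_snd (lam : Fin 5 → Γ) (u : List St) :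
    (ev (mark lam) u).2 = ev (fun p : St => Multiplicative.ofAdd p.1.2) u := by
  induction u with
  | nil => rfl
  | cons p u ih => rw [ev_cons, ev_cons, Prod.snd_mul, ih]; rfl

lemma isMarking_mark {lam : Fin 5 → Γ} (h : Good lam) : IsMarking (mark lam) where
  symm := by
    rintro ⟨⟨y, k⟩, hk⟩
    refine ⟨⟨⟨y, -k⟩, neg_mem_E y k hk⟩, ?_⟩
    ext
    · exact (h.inv y).symm
    · rfl
  ne_one := by
    rintro ⟨⟨y, k⟩, hk⟩ h1
    have h2 : lam y = lam 0 := by rw [h.zero]; exact congrArg Prod.fst h1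
    have h3 : k = 0 := congrArg Prod.snd h1
    have h4 := h.injective h2
    subst h3
    exact (zero_mem_E y).1 hk h4
  gen := by
    rintro ⟨g, k⟩
    -- the first coordinate
    have h1 : ∀ u : List (Fin 5), ∃ v : List St, ev (mark lam) v = (ev lam u, 1) := by
      intro u
      induction u with
      | nil => exact ⟨[], rfl⟩
      | cons y u ih =>
        obtain ⟨v, hv⟩ := ih
        by_cases hy : y = 0
        · refine ⟨v, ?_⟩
          rw [hv, hy, ev_cons, h.zero, one_mul]
        · refine ⟨⟨⟨y, 0⟩, (zero_mem_E y).2 hy⟩ :: v, ?_⟩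
          rw [ev_cons, hv, ev_cons]
          ext
          · rfl
          · rfl
    -- the second coordinate
    have h2 : ∀ n : ℕ, ∃ v : List St, ev (mark lam) v = (1, Multiplicative.ofAdd (n : ZMod 14)) := by
      intro n
      induction n with
      | zero => exact ⟨[], by simp [ev_nil]; rfl⟩
      | succ n ih =>
        obtain ⟨v, hv⟩ := ih
        refine ⟨⟨⟨0, 6⟩, by decide⟩ :: ⟨⟨0, 9⟩, by decide⟩ :: v, ?_⟩
        rw [ev_cons, ev_cons, hv]
        ext
        · simp [mark, h.zero]
        · change (6 : ZMod 14) + (9 + (n : ZMod 14)) = ((n + 1 : ℕ) : ZMod 14)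
          have : (6 : ZMod 14) + 9 = 1 := by decide
          push_cast
          rw [← add_assoc, this, add_comm]
    obtain ⟨u, hu⟩ := h.gen g
    obtain ⟨v, hv⟩ := h1 u
    obtain ⟨v', hv'⟩ := h2 (Multiplicative.toAdd k).val
    refine ⟨v ++ v', ?_⟩
    rw [ev_append, hv, hv', hu, ZMod.natCast_zmod_val]
    ext
    · simp
    · simp

/-- The gadget graph. -/
def gad {lam : Fin 5 → Γ} (h : Good lam) : SimpleGraph (Γ × Multiplicative (ZMod 14)) :=
  cay (mark lam) (isMarking_mark h)

/-- The recognisable involutions. -/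
def sg (lam : Fin 5 → Γ) (x : Fin 4) (p : Γ × Multiplicative (ZMod 14)) :
    Γ × Multiplicative (ZMod 14) := (p.1 * lam x.succ, p.2)

lemma gad_adj {lam : Fin 5 → Γ} (h : Good lam) (p q : Γ × Multiplicative (ZMod 14)) :
    (gad h).Adj p q ↔ ∃ (y : Fin 5) (k : ZMod 14), k ∈ E y ∧
      q = (p.1 * lam y, p.2 * Multiplicative.ofAdd k) := by
  constructor
  · rintro ⟨⟨⟨y, k⟩, hk⟩, rfl⟩
    exact ⟨y, k, hk, rfl⟩
  · rintro ⟨y, k, hk, rfl⟩
    exact ⟨⟨⟨y, k⟩, hk⟩, rfl⟩

lemma pair_injective {lam : Fin 5 → Γ} (h : Good lam) (p : Γ × Multiplicative (ZMod 14)) :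
    Function.Injective (fun a : Fin 5 × ZMod 14 =>
      (p.1 * lam a.1, p.2 * Multiplicative.ofAdd a.2)) := by
  rintro ⟨y, k⟩ ⟨y', k'⟩ hab
  simp only [Prod.mk.injEq, mul_right_inj, EmbeddingLike.apply_eq_iff_eq] at hab
  rw [h.injective hab.1, hab.2]

lemma codeg_gad {lam : Fin 5 → Γ} (h : Good lam) (p : Γ × Multiplicative (ZMod 14))
    (y : Fin 5) (k : ZMod 14) :
    codeg (gad h) p (p.1 * lam y, p.2 * Multiplicative.ofAdd k) = (CN y k).card := by
  have hset : (gad h).commonNeighbors p (p.1 * lam y, p.2 * Multiplicative.ofAdd k) =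
      ((CN y k).map ⟨_, pair_injective h p⟩ : Finset (Γ × Multiplicative (ZMod 14))) := by
    ext w
    simp only [CN, Finset.coe_map, Function.Embedding.coeFn_mk, Set.mem_image, Finset.mem_coe,
      Finset.mem_filter, Finset.mem_univ, true_and, Prod.exists]
    rw [mem_commonNeighbors, adj_comm (gad h) (p.1 * lam y, _) w, gad_adj, gad_adj]
    constructor
    · rintro ⟨⟨z, l, hl, rfl⟩, z', l', hl', hw⟩
      refine ⟨z, l, ⟨hl, z', ?_, ?_⟩, rfl⟩
      · have h1 := congrArg Prod.fst hw
        simp only [mul_assoc, mul_right_inj] at h1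
        exact (h.mul_eq z z' y).1 h1.symm
      · have h1 := congrArg Prod.snd hw
        simp only [mul_assoc, mul_right_inj] at h1
        have h2 : k = l + l' := h1
        rw [h2, add_sub_cancel_left]
        exact hl'
    · rintro ⟨z, l, ⟨hl, z', hz', hl'⟩, rfl⟩
      refine ⟨⟨z, l, hl, rfl⟩, z', k - l, hl', ?_⟩
      ext
      · simp only [mul_assoc, (h.mul_eq z z' y).2 hz']
      · simp only [mul_assoc, ← ofAdd_add, add_sub_cancel]
  unfold codeg
  rw [hset, Set.ncard_coe_finset, Finset.card_map]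

theorem recog_gad {lam : Fin 5 → Γ} (h : Good lam) : Recog (gad h) cc (sg lam) := by
  intro x p q
  constructor
  · rintro ⟨h1, h2⟩
    rw [gad_adj] at h1
    obtain ⟨y, k, hk, rfl⟩ := h1
    rw [codeg_gad] at h2
    obtain ⟨rfl, rfl⟩ := (table x y k hk).1 h2
    simp [sg]
  · rintro rfl
    have h0 : (0 : ZMod 14) ∈ E x.succ := (zero_mem_E _).2 (Fin.succ_ne_zero x)
    have e : sg lam x p = (p.1 * lam x.succ, p.2 * Multiplicative.ofAdd 0) := by
      simp [sg]
    rw [e]
    refine ⟨(gad_adj h _ _).2 ⟨_, _, h0, rfl⟩, ?_⟩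
    rw [codeg_gad]
    exact (table x _ _ h0).2 ⟨rfl, rfl⟩

lemma mark_injective {lam : Fin 5 → Γ} (h : Good lam) : Function.Injective (mark lam) := by
  rintro ⟨⟨y, k⟩, hk⟩ ⟨⟨y', k'⟩, hk'⟩ hab
  have h1 := h.injective (congrArg Prod.fst hab)
  have h2 : k = k' := congrArg Prod.snd hab
  subst h2
  simp only at h1
  subst h1
  rfl

lemma ncard_nb_gad {lam : Fin 5 → Γ} (h : Good lam) (p : Γ × Multiplicative (ZMod 14)) :
    ((gad h).neighborSet p).ncard = 20 := by
  have hset : (gad h).neighborSet p = (fun a : St => p * mark lam a) '' Set.univ := by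
    rw [Set.image_univ]
    rfl
  rw [hset, Set.ncard_image_of_injective, Set.ncard_univ, Nat.card_eq_fintype_card, card_St]
  intro a b hab
  exact mark_injective h (mul_left_cancel hab)

/-- Two words in the letters `1, …, 4` (coded by `Fin 4`) lead to the same vertex iff their
values are equal. -/
lemma act_sg (lam : Fin 5 → Γ) (u : List (Fin 4)) (p : Γ × Multiplicative (ZMod 14)) :
    act (sg lam) u p = (p.1 * ev lam (u.map Fin.succ), p.2) := by
  induction u generalizing p with
  | nil => simp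
  | cons x u ih => rw [act_cons, ih, List.map_cons, ev_cons]; simp [sg, mul_assoc]

/-- The main lower bound: short relations of transpositions in `Γ` force every finite
vertex-transitive graph with the same ball to have many vertices. -/
theorem lower_bound {lam : Fin 5 → Γ} (h : Good lam) {J : Type*} [Fintype J] [DecidableEq J]
    (y : J → List (Fin 4)) (L r : ℕ) (hL : ∀ j, (y j).length ≤ L) (hr : 4 * L ≤ r) (hr1 : 1 ≤ r)
    (hne : ∀ i j, i ≠ j → ev lam ((y i).map Fin.succ) ≠ ev lam ((y j).map Fin.succ))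
    (hrel : ∀ i j l : J, i ≠ j → ev lam ((y l ++ (y i ++ (y j ++ y i))).map Fin.succ) =
      ev lam (((y i ++ (y j ++ y i)) ++ y (Equiv.swap i j l)).map Fin.succ))
    {W : Type*} [Finite W] (H : SimpleGraph W) (hc : H.Connected) (hH : VertexTransitive H)
    (hball : SameBall r (gad h) H) :
    (Fintype.card J).factorial ≤ 21 ^ H.ediam.toNat ∧ H.ediam ≠ ⊤ ∧
      (Fintype.card J).factorial ≤ Nat.card W := by
  obtain ⟨g₀, h₀, φ, hφ⟩ := hball
  obtain ⟨σ', hR, hw⟩ := (recog_gad h).transfer hH hr1 g₀ h₀ φ hφ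
  have hlen : ∀ i j l : J, (y l ++ (y i ++ (y j ++ y i))).length ≤ r := by
    intro i j l
    have h1 := hL i; have h2 := hL j; have h3 := hL l
    simp only [List.length_append]; omega
  have hlen' : ∀ i j l : J, ((y i ++ (y j ++ y i)) ++ y l).length ≤ r := by
    intro i j l
    have h1 := hL i; have h2 := hL j; have h3 := hL l
    simp only [List.length_append]; omega
  have hlen1 : ∀ j : J, (y j).length ≤ r := fun j => by have := hL j; omega
  have : Nonempty W := ⟨h₀⟩
  have hcard : (Fintype.card J).factorial ≤ Nat.card W := by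
    refine factorial_le_card hR hH h₀ y ?_ ?_
    · intro i j hij hact
      rw [hw _ _ (hlen1 i) (hlen1 j), act_sg, act_sg] at hact
      have := congrArg Prod.fst hact
      exact hne i j hij (mul_left_cancel this)
    · intro i j l hij v
      rw [hw _ _ (hlen i j l) (hlen' i j _), act_sg, act_sg, hrel i j l hij]
  have hdeg : ∀ v, (H.neighborSet v).ncard ≤ 20 := fun v => by
    rw [ncard_neighborSet_eq hH hr1 g₀ h₀ φ hφ v, ncard_nb_gad h]
  have htop : H.ediam ≠ ⊤ := connected_iff_ediam_ne_top.1 hc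
  refine ⟨hcard.trans ?_, htop, hcard⟩
  exact card_le_of_ediam_le H 20 hdeg _ (ENat.natCast_toNat htop).ge

end Pool.Agent.Lib.MP_6bdaeb_co
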