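import Pool.Agent.Lib.MP_6bdaeb_co.Model

/-!
# The limit group and its finite approximations
-/

namespace Pool.Agent.Lib.MP_6bdaeb_co

open SimpleGraph Filter

section Closure

variable {G : Type*} [Group G] (lam : Fin 5 → G)

/-- The letters as elements of the subgroup they generate. -/
def lamC (i : Fin 5) : Subgroup.closure (Set.range lam) :=
  ⟨lam i, Subgroup.subset_closure ⟨i, rfl⟩⟩

lemma coe_ev (u : List (Fin 5)) : ((ev (lamC lam) u : Subgroup.closure (Set.range lam)) : G) =
    ev lam u := by
  induction u with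
  | nil => rfl
  | cons x u ih => rw [ev_cons, ev_cons, Subgroup.coe_mul, ih]; rfl

lemma ev_lamC_eq_iff (u v : List (Fin 5)) :
    ev (lamC lam) u = ev (lamC lam) v ↔ ev lam u = ev lam v := by
  rw [← coe_ev lam u, ← coe_ev lam v, Subtype.coe_inj]

lemma exists_word {lam : Fin 5 → G} (h : ∀ y, lam y * lam y = 1) (g : G)
    (hg : g ∈ Subgroup.closure (Set.range lam)) : ∃ u : List (Fin 5), ev lam u = g := by
  induction hg using Subgroup.closure_induction with
  | mem x hx =>
    obtain ⟨i, rfl⟩ := hx
    exact ⟨[i], by simp⟩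
  | one => exact ⟨[], rfl⟩
  | mul x y _ _ hx hy =>
    obtain ⟨u, hu⟩ := hx
    obtain ⟨v, hv⟩ := hy
    exact ⟨u ++ v, by rw [ev_append, hu, hv]⟩
  | inv x _ hx =>
    obtain ⟨u, hu⟩ := hx
    refine ⟨u.reverse, ?_⟩
    rw [← hu, eq_inv_iff_mul_eq_one]
    clear hu
    induction u with
    | nil => simp
    | cons y u ih =>
      rw [List.reverse_cons, ev_concat, ev_cons, mul_assoc, ← mul_assoc (lam y), h, one_mul]
      exact ih

lemma good_lamC {lam : Fin 5 → G} (h : ∀ y, lam y * lam y = 1)
    (hm : ∀ y z x, lam y * lam z = lam x ↔ sym y z x) : Good (lamC lam) where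
  gen := by
    rintro ⟨g, hg⟩
    obtain ⟨u, hu⟩ := exists_word h g hg
    refine ⟨u, Subtype.ext ?_⟩
    rw [coe_ev, hu]
  mul_eq := by
    intro y z x
    rw [← hm, ← Subtype.coe_inj, Subgroup.coe_mul]
    rfl

end Closure

/-! ### The ultraproduct -/

/-- The product of the finite models. -/
abbrev PP : Type := (N : ℕ) → Equiv.Perm (Option (RW N))

/-- Elements of the product that are trivial almost everywhere. -/
def KU : Subgroup PP where
  carrier := {g | ∀ᶠ N in (hyperfilter ℕ : Filter ℕ), g N = 1}
  mul_mem' := by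
    intro a b ha hb
    filter_upwards [ha, hb] with N h1 h2
    rw [Pi.mul_apply, h1, h2, one_mul]
  one_mem' := Eventually.of_forall (fun N => rfl)
  inv_mem' := by
    intro a ha
    filter_upwards [ha] with N h1
    rw [Pi.inv_apply, h1, inv_one]

instance : KU.Normal where
  conj_mem := by
    intro a ha g
    have ha' : ∀ᶠ N in (hyperfilter ℕ : Filter ℕ), a N = 1 := ha
    change ∀ᶠ N in (hyperfilter ℕ : Filter ℕ), (g * a * g⁻¹) N = 1
    filter_upwards [ha'] with N h1
    simp [h1]

/-- The letters in the ultraproduct. -/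
def lamU (i : Fin 5) : PP ⧸ KU := QuotientGroup.mk (fun N => lamN N i)

lemma ev_lamU (u : List (Fin 5)) :
    ev lamU u = QuotientGroup.mk (fun N => ev (lamN N) u) := by
  induction u with
  | nil => rfl
  | cons x u ih => rw [ev_cons, ih]; rfl

lemma ev_lamU_eq_iff (u v : List (Fin 5)) : ev lamU u = ev lamU v ↔
    ∀ᶠ N in (hyperfilter ℕ : Filter ℕ), ev (lamN N) u = ev (lamN N) v := by
  rw [ev_lamU, ev_lamU, QuotientGroup.eq]
  change (∀ᶠ N in (hyperfilter ℕ : Filter ℕ), _) ↔ _
  refine eventually_congr (Eventually.of_forall (fun N => ?_))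
  rw [Pi.mul_apply, Pi.inv_apply, inv_mul_eq_one]

/-- Each finite set of equations between words is decided in the same way by the ultraproduct
and by some finite models of large index. -/
theorem exists_model (R N₀ : ℕ) : ∃ N ≥ N₀, ∀ u v : List (Fin 5), u.length ≤ R → v.length ≤ R →
    (ev lamU u = ev lamU v ↔ ev (lamN N) u = ev (lamN N) v) := by
  have hfin : {w : List (Fin 5) | w.length ≤ R}.Finite := List.finite_length_le (Fin 5) R
  have h1 : ∀ᶠ N in (hyperfilter ℕ : Filter ℕ), ∀ u ∈ {w : List (Fin 5) | w.length ≤ R},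
      ∀ v ∈ {w : List (Fin 5) | w.length ≤ R},
      (ev lamU u = ev lamU v ↔ ev (lamN N) u = ev (lamN N) v) := by
    rw [eventually_all_finite hfin]
    intro u _
    rw [eventually_all_finite hfin]
    intro v _
    by_cases h : ev lamU u = ev lamU v
    · have h2 := (ev_lamU_eq_iff u v).1 h
      filter_upwards [h2] with N h3
      exact ⟨fun _ => h3, fun _ => h⟩
    · have h2 := h
      rw [ev_lamU_eq_iff, ← Ultrafilter.eventually_not] at h2
      filter_upwards [h2] with N h3
      exact ⟨fun h4 => absurd h4 h, fun h4 => absurd h4 h3⟩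
  have h2 : ∀ᶠ N in (hyperfilter ℕ : Filter ℕ), N₀ ≤ N := by
    have : ∀ᶠ N in (atTop : Filter ℕ), N₀ ≤ N := eventually_ge_atTop N₀
    rw [← Nat.cofinite_eq_atTop] at this
    exact hyperfilter_le_cofinite this
  obtain ⟨N, hN1, hN2⟩ := (h1.and h2).exists
  exact ⟨N, hN2, fun u v hu hv => hN1 u hu v hv⟩

lemma lamU_mul_self (y : Fin 5) : lamU y * lamU y = 1 := by
  have h : ev lamU [y, y] = ev lamU [] := by
    rw [ev_lamU_eq_iff]
    refine Eventually.of_forall (fun N => ?_)
    rw [ev_cons, ev_cons, ev_nil, mul_one, lamN_mul_self]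
  simpa using h

lemma lamU_mul_eq (y z x : Fin 5) : lamU y * lamU z = lamU x ↔ sym y z x := by
  obtain ⟨N, hN, h⟩ := exists_model 2 2
  have h1 := h [y, z] [x] (by simp) (by simp)
  rw [ev_cons, ev_cons, ev_nil, ev_cons, ev_nil, ev_cons, ev_cons, ev_nil, ev_cons, ev_nil,
    mul_one, mul_one, mul_one, mul_one, lamN_mul_eq hN] at h1
  exact h1

/-- The limit group is a good marked group. -/
theorem goodU : Good (lamC lamU) := good_lamC lamU_mul_self lamU_mul_eq

/-- The finite models are good marked groups. -/
theorem goodN {N : ℕ} (hN : 2 ≤ N) : Good (lamC (lamN N)) :=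
  good_lamC (lamN_mul_self N) (lamN_mul_eq hN)

/-- Equal patterns of equations give equal balls of the gadget graphs. -/
theorem sameBall_gad {Γ Γ' : Type*} [Group Γ] [Group Γ'] {lam : Fin 5 → Γ} {lam' : Fin 5 → Γ'}
    (h : Good lam) (h' : Good lam') {r : ℕ}
    (hp : ∀ u v : List (Fin 5), u.length ≤ r + 1 → v.length ≤ r + 1 →
      (ev lam u = ev lam v ↔ ev lam' u = ev lam' v)) : SameBall r (gad h) (gad h') := by
  refine sameBall_cay (isMarking_mark h) (isMarking_mark h') (fun u v hu hv => ?_)
  rw [Prod.ext_iff, Prod.ext_iff, ev_mark_fst, ev_mark_fst, ev_mark_fst, ev_mark_fst,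
    ev_mark_snd, ev_mark_snd, ev_mark_snd, ev_mark_snd,
    hp _ _ (by simpa using hu) (by simpa using hv)]

/-! ### Relations of transpositions -/

section Rel

variable {J : Type*} [DecidableEq J]

lemma swap_rel (i j l : J) (hij : i ≠ j) :
    (Equiv.swap none (some l) * (Equiv.swap none (some i) * (Equiv.swap none (some j) *
      Equiv.swap none (some i))) : Equiv.Perm (Option J)) =
    (Equiv.swap none (some i) * (Equiv.swap none (some j) * Equiv.swap none (some i))) *
      Equiv.swap none (some (Equiv.swap i j l)) := by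
  set T : Equiv.Perm (Option J) :=
    Equiv.swap none (some i) * (Equiv.swap none (some j) * Equiv.swap none (some i)) with hT
  have hs : ∀ a b : J, a ≠ b → (Equiv.swap none (some a) : Equiv.Perm (Option J)) (some b) =
      some b := fun a b hab =>
    Equiv.swap_apply_of_ne_of_ne (by simp) (by simpa using hab.symm)
  have h1 : T none = none := by
    simp only [hT, Equiv.Perm.coe_mul, Function.comp_apply, Equiv.swap_apply_left]
    rw [hs j i hij.symm, Equiv.swap_apply_right]
  have h2 : ∀ m, T (some m) = some (Equiv.swap i j m) := by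
    intro m
    simp only [hT, Equiv.Perm.coe_mul, Function.comp_apply]
    by_cases hmi : m = i
    · subst hmi
      rw [Equiv.swap_apply_right, Equiv.swap_apply_left, Equiv.swap_apply_left,
        hs m j hij]
    · rw [hs i m (Ne.symm hmi)]
      by_cases hmj : m = j
      · subst hmj
        rw [Equiv.swap_apply_right, Equiv.swap_apply_left, Equiv.swap_apply_right]
      · rw [hs j m (Ne.symm hmj), hs i m (Ne.symm hmi), Equiv.swap_apply_of_ne_of_ne hmi hmj]
  rw [Equiv.mul_swap_eq_swap_mul, h1, h2, Equiv.swap_apply_self]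

end Rel

/-- The lower bound for all marked groups that look like the finite models. -/
theorem lower_bound_model {Γ : Type*} [Group Γ] {lam : Fin 5 → Γ} (h : Good lam) (k N r : ℕ)
    (hkN : k ≤ N)
    (hp : ∀ u v : List (Fin 5), u.length ≤ 8 * k + 4 → v.length ≤ 8 * k + 4 →
      (ev lam u = ev lam v ↔ ev (lamN N) u = ev (lamN N) v)) (hr : 8 * k + 4 ≤ r)
    {W : Type*} [Finite W] (H : SimpleGraph W) (hc : H.Connected) (hH : VertexTransitive H)
    (hball : SameBall r (gad h) H) :
    (Fintype.card (RW k)).factorial ≤ 21 ^ H.ediam.toNat ∧ H.ediam ≠ ⊤ ∧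
      (Fintype.card (RW k)).factorial ≤ Nat.card W := by
  have hmem : ∀ w : RW k, w.1.IsChain (· ≠ ·) ∧ w.1.length ≤ N := fun w =>
    ⟨w.2.1, w.2.2.trans hkN⟩
  have hlen : ∀ w : RW k, (yw w.1).length ≤ 2 * k + 1 := fun w => by
    rw [length_yw]; have := w.2.2; omega
  refine lower_bound h (fun w : RW k => yw w.1) (2 * k + 1) r hlen (by omega) (by omega) ?_ ?_
    H hc hH hball
  · intro i j hij he
    rw [hp _ _ (by have := hlen i; rw [List.length_map]; omega)
      (by have := hlen j; rw [List.length_map]; omega), ev_yw _ (hmem i), ev_yw _ (hmem j)] at he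
    have := congrArg (fun f : Equiv.Perm (Option (RW N)) => f none) he
    simp only [Equiv.swap_apply_left, Option.some.injEq] at this
    exact hij (Subtype.ext (congrArg (fun w : RW N => w.1) this))
  · intro i j l hij
    have hi := hlen i
    have hj := hlen j
    have hl := hlen l
    have hl' := hlen (Equiv.swap i j l)
    rw [hp _ _ (by simp only [List.length_map, List.length_append]; omega)
      (by simp only [List.length_map, List.length_append]; omega)]
    simp only [List.map_append, ev_append]
    rw [ev_yw _ (hmem i), ev_yw _ (hmem j), ev_yw _ (hmem l), ev_yw _ (hmem (Equiv.swap i j l))]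
    set f : RW k → RW N := fun w => ⟨w.1, hmem w⟩ with hf
    have hfinj : Function.Injective f := fun a b hab =>
      Subtype.ext (congrArg (fun w : RW N => w.1) hab)
    have hfs : f (Equiv.swap i j l) = Equiv.swap (f i) (f j) (f l) := by
      rw [hfinj.swap_apply]
    change Equiv.swap none (some (f l)) * (Equiv.swap none (some (f i)) *
      (Equiv.swap none (some (f j)) * Equiv.swap none (some (f i)))) =
      (Equiv.swap none (some (f i)) * (Equiv.swap none (some (f j)) *
      Equiv.swap none (some (f i)))) * Equiv.swap none (some (f (Equiv.swap i j l)))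
    rw [hfs]
    exact swap_rel (f i) (f j) (f l) (fun h => hij (hfinj h))

/-! ### Many reduced words -/

/-- Encode a list of bits as a reduced word. -/
def enc : List Bool → List (Fin 3)
  | [] => []
  | b :: t => (((enc t).head?.getD 0) + 1 + (if b then 1 else 0)) :: enc t

lemma enc_mem (t : List Bool) : (enc t).IsChain (· ≠ ·) ∧ (enc t).length = t.length := by
  induction t with
  | nil => exact ⟨List.isChain_nil, rfl⟩
  | cons b t ih =>
    refine ⟨List.isChain_cons.2 ⟨?_, ih.1⟩, by simp [enc, ih.2]⟩
    intro y hy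
    rw [Option.mem_def] at hy
    rw [hy, Option.getD_some]
    have key : ∀ (y : Fin 3) (b : Bool), (y + 1 + if b then 1 else 0) ≠ y := by decide
    exact key y b

end Pool.Agent.Lib.MP_6bdaeb_co
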