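import Pool.Agent.Lib.MP_6bdaeb_co.Gadget

/-!
# Finite models: permutations of a truncated tree with one extra point
-/

namespace Pool.Agent.Lib.MP_6bdaeb_co

open SimpleGraph

/-- Reduced words of length at most `N` in three letters. -/
abbrev RW (N : ℕ) : Type := {w : List (Fin 3) // w.IsChain (· ≠ ·) ∧ w.length ≤ N}

instance (N : ℕ) : Finite (RW N) := by
  have h : {w : List (Fin 3) | w.length ≤ N}.Finite := List.finite_length_le (Fin 3) N
  have h2 : {w : List (Fin 3) | w.IsChain (· ≠ ·) ∧ w.length ≤ N}.Finite :=
    h.subset (fun w hw => hw.2)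
  exact h2.to_subtype

noncomputable instance (N : ℕ) : Fintype (RW N) := Fintype.ofFinite _

/-- The empty word. -/
def RW.nil (N : ℕ) : RW N := ⟨[], List.isChain_nil, Nat.zero_le _⟩

/-- The action of a letter on words. -/
def mv (N : ℕ) (x : Fin 3) (w : List (Fin 3)) : List (Fin 3) :=
  if w.head? = some x then w.tail else if w.length < N then x :: w else w

lemma mv_mem {N : ℕ} (x : Fin 3) {w : List (Fin 3)} (h : w.IsChain (· ≠ ·) ∧ w.length ≤ N) :
    (mv N x w).IsChain (· ≠ ·) ∧ (mv N x w).length ≤ N := by
  unfold mv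
  split_ifs with h1 h2
  · exact ⟨h.1.tail, by rw [List.length_tail]; omega⟩
  · refine ⟨List.isChain_cons.2 ⟨?_, h.1⟩, by rw [List.length_cons]; omega⟩
    intro y hy hxy
    apply h1
    rw [hxy]; exact hy
  · exact h

lemma mv_mv {N : ℕ} (x : Fin 3) {w : List (Fin 3)} (h : w.IsChain (· ≠ ·) ∧ w.length ≤ N) :
    mv N x (mv N x w) = w := by
  by_cases h1 : w.head? = some x
  · cases w with
    | nil => simp at h1
    | cons y w =>
      simp only [List.head?_cons, Option.some.injEq] at h1
      subst h1
      have e : mv N y (y :: w) = w := by simp [mv]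
      rw [e]
      have h2 : w.head? ≠ some y := by
        intro h2
        exact (List.isChain_cons.1 h.1).1 y h2 rfl
      have h3 : w.length < N := by have := h.2; rw [List.length_cons] at this; omega
      simp [mv, h2, h3]
  · by_cases h2 : w.length < N
    · have e : mv N x w = x :: w := by simp [mv, h1, h2]
      rw [e]; simp [mv]
    · have e : mv N x w = w := by simp [mv, h1, h2]
      rw [e, e]

/-- The action of a letter on `RW N`. -/
def mvE (N : ℕ) (x : Fin 3) : Equiv.Perm (RW N) where
  toFun w := ⟨mv N x w.1, mv_mem x w.2⟩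
  invFun w := ⟨mv N x w.1, mv_mem x w.2⟩
  left_inv w := Subtype.ext (mv_mv x w.2)
  right_inv w := Subtype.ext (mv_mv x w.2)

/-- The four involutions (and the identity) of the model. -/
def lamN (N : ℕ) : Fin 5 → Equiv.Perm (Option (RW N))
  | 0 => 1
  | 1 => (mvE N 0).optionCongr
  | 2 => (mvE N 1).optionCongr
  | 3 => (mvE N 2).optionCongr
  | 4 => Equiv.swap none (some (RW.nil N))

lemma mvE_mul_self (N : ℕ) (x : Fin 3) :
    ((mvE N x).optionCongr : Equiv.Perm (Option (RW N))) * (mvE N x).optionCongr = 1 := by
  ext1 w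
  cases w with
  | none => rfl
  | some w =>
    simp only [Equiv.Perm.coe_mul, Function.comp_apply, Equiv.optionCongr_apply, Option.map_some,
      Equiv.Perm.coe_one, id_eq, Option.some.injEq]
    exact Subtype.ext (mv_mv x w.2)

lemma lamN_mul_self (N : ℕ) (y : Fin 5) : lamN N y * lamN N y = 1 := by
  fin_cases y
  · exact one_mul 1
  · exact mvE_mul_self N 0
  · exact mvE_mul_self N 1
  · exact mvE_mul_self N 2
  · exact Equiv.swap_mul_self _ _

lemma lamN_castSucc (N : ℕ) (x : Fin 3) : lamN N x.castSucc.succ = (mvE N x).optionCongr := by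
  fin_cases x <;> rfl

/-- The letters acting on words, for the model with `N = 2`. -/
def md : Fin 5 → Option (List (Fin 3)) → Option (List (Fin 3))
  | 0, p => p
  | 1, p => p.map (mv 2 0)
  | 2, p => p.map (mv 2 1)
  | 3, p => p.map (mv 2 2)
  | 4, p => if p = none then some [] else if p = some [] then none else p

lemma mv_eq {N : ℕ} (hN : 2 ≤ N) (x : Fin 3) {w : List (Fin 3)} (hw : w.length ≤ 1) :
    mv N x w = mv 2 x w := by
  unfold mv
  have h1 : w.length < N := by omega
  have h2 : w.length < 2 := by omega
  simp [h1, h2]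

lemma md_eq {N : ℕ} (hN : 2 ≤ N) (y : Fin 5) (p : Option (RW N))
    (hp : ∀ w ∈ p, w.1.length ≤ 1) :
    (lamN N y p).map Subtype.val = md y (p.map Subtype.val) := by
  have key : ∀ x : Fin 3, ((mvE N x).optionCongr p).map Subtype.val =
      (p.map Subtype.val).map (mv 2 x) := by
    intro x
    cases p with
    | none => rfl
    | some w =>
      simp only [Equiv.optionCongr_apply, Option.map_some, Option.some.injEq]
      exact mv_eq hN x (hp w rfl)
  fin_cases y
  · rfl
  · exact key 0
  · exact key 1
  · exact key 2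
  · change (Equiv.swap none (some (RW.nil N)) p).map Subtype.val = md 4 (p.map Subtype.val)
    cases p with
    | none => rw [Equiv.swap_apply_left]; rfl
    | some w =>
      by_cases hw : w = RW.nil N
      · subst hw; rw [Equiv.swap_apply_right]; rfl
      · rw [Equiv.swap_apply_of_ne_of_ne (by simp) (by simpa using hw)]
        have : w.1 ≠ [] := fun h => hw (Subtype.ext h)
        simp [md, this]

lemma md_table : ∀ y z x : Fin 5, md y (md z (some [])) = md x (some []) →
    md y (md z none) = md x none → sym y z x := by decide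

lemma md_len : ∀ z : Fin 5, (∀ w ∈ md z (some []), w.length ≤ 1) ∧
    (∀ w ∈ md z none, w.length ≤ 1) := by decide

lemma lamN_mul_eq {N : ℕ} (hN : 2 ≤ N) (y z x : Fin 5) :
    lamN N y * lamN N z = lamN N x ↔ sym y z x := by
  constructor
  · intro h
    have hz1 : (lamN N z (some (RW.nil N))).map Subtype.val = md z (some []) :=
      md_eq hN z _ (by intro w hw; cases hw; exact Nat.zero_le _)
    have hz2 : (lamN N z none).map Subtype.val = md z none :=
      md_eq hN z none (by intro w hw; cases hw)
    have hx1 : (lamN N x (some (RW.nil N))).map Subtype.val = md x (some []) :=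
      md_eq hN x _ (by intro w hw; cases hw; exact Nat.zero_le _)
    have hx2 : (lamN N x none).map Subtype.val = md x none :=
      md_eq hN x none (by intro w hw; cases hw)
    have hl1 : ∀ w ∈ lamN N z (some (RW.nil N)), w.1.length ≤ 1 := by
      intro w hw
      apply (md_len z).1
      rw [← hz1]
      exact Option.mem_map_of_mem _ hw
    have hl2 : ∀ w ∈ lamN N z none, w.1.length ≤ 1 := by
      intro w hw
      apply (md_len z).2
      rw [← hz2]
      exact Option.mem_map_of_mem _ hw
    refine md_table y z x ?_ ?_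
    · rw [← hz1, ← md_eq hN y _ hl1, ← hx1, ← h]; rfl
    · rw [← hz2, ← md_eq hN y _ hl2, ← hx2, ← h]; rfl
  · rintro (⟨rfl, rfl⟩ | ⟨rfl, rfl⟩ | ⟨rfl, rfl⟩)
    · exact one_mul _
    · exact mul_one _
    · exact lamN_mul_self N y

/-- The word of the transposition `(∞ w)`. -/
def yw (w : List (Fin 3)) : List (Fin 4) :=
  w.map Fin.castSucc ++ ([3] ++ (w.map Fin.castSucc).reverse)

lemma length_yw (w : List (Fin 3)) : (yw w).length = 2 * w.length + 1 := by
  simp [yw]; ring

lemma ev_yw {N : ℕ} (w : List (Fin 3)) (hw : w.IsChain (· ≠ ·) ∧ w.length ≤ N) :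
    ev (lamN N) ((yw w).map Fin.succ) = Equiv.swap none (some ⟨w, hw⟩) := by
  induction w with
  | nil =>
    change lamN N 4 * 1 = _
    rw [mul_one]; rfl
  | cons x w ih =>
    have hw' : w.IsChain (· ≠ ·) ∧ w.length ≤ N :=
      ⟨hw.1.tail, by have := hw.2; rw [List.length_cons] at this; omega⟩
    have e : (yw (x :: w)).map Fin.succ =
        x.castSucc.succ :: ((yw w).map Fin.succ ++ [x.castSucc.succ]) := by
      simp [yw]
    rw [e, ev_cons, ev_append, ih hw', ev_cons, ev_nil, mul_one, lamN_castSucc, ← mul_assoc,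
      Equiv.mul_swap_eq_swap_mul, mul_assoc, mvE_mul_self, mul_one]
    congr 1
    have h1 : w.head? ≠ some x := by
      intro h2
      exact (List.isChain_cons.1 hw.1).1 x h2 rfl
    have h3 : w.length < N := by have := hw.2; rw [List.length_cons] at this; omega
    have h4 : mv N x w = x :: w := by simp [mv, h1, h3]
    simp only [Equiv.optionCongr_apply, Option.map_some, Option.some.injEq]
    exact Subtype.ext h4

end Pool.Agent.Lib.MP_6bdaeb_co
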